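import Mathlib
import Pool.Agent.N781.S.Stm
import Pool.Agent.N565.A.DilSq
import Pool.Agent.N344.A.DilSS

/-! The dilation principle for the short exponential sums of the cubes of an arbitrary function:
port of `N344/A/DilSS` and `N565/A/DilSq` (helper222). -/

namespace Pool.Agent.N222.S

open Finset Pool.Agent.N675 Pool.Agent.N781.A Pool.Agent.N781.S Pool.Agent.N344.A

/-- The dilation principle for mean squares, for an arbitrary function. -/
theorem dilsqw {Z I : Type} [Fintype Z] [DecidableEq Z] [Fintype I] [DecidableEq I]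
    (φ : I → Z → ℤ) (σ : I → Bool) (ε : ℝ) (hε : 0 < ε) :
    ∃ C : ℝ, ∀ P : Finset ℕ, (∀ p ∈ P, p.Prime) → ∃ K₀ : ℕ, 0 < K₀ ∧
      ∀ (D : ℕ) (B : Z → ℕ), K₀ ≤ D → (∀ z, K₀ ≤ B z) →
      ∀ w : ℤ → ℂ, (∀ m, ‖w m‖ ≤ 1) →
        ∑ p ∈ P, (1 / (p : ℝ)) * ER (fun z => B z / p) (fun z =>
          ‖(av D fun d => ∏ i, cj (σ i) (w (d + (p : ℤ) * LL φ i z)))
            - av (D / p) fun d => ∏ i, cj (σ i)
                ((fun m => w ((p : ℤ) * m)) (d + LL φ i z))‖ ^ 2)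
          ≤ C + ε * ∑ p ∈ P, 1 / (p : ℝ) := by
  obtain ⟨C, hC⟩ := Pool.Agent.N565.A.gen (J := I) (Y := Unit) (Z := Z) (fun _ _ => 1) φ ε hε
  refine ⟨C, fun P hP => ?_⟩
  obtain ⟨K, hK0, hK⟩ := hC P hP
  refine ⟨K, hK0, fun D B hD hB w hw => ?_⟩
  have h := hK (fun _ => D) B (fun _ => hD) hB (fun i m => cj (σ i) (w m))
    (fun i m => by rw [norm_cj]; exact hw _)
  refine le_of_eq_of_le (Finset.sum_congr rfl fun p _ => ?_) h
  congr 2
  funext z
  have hL : ∀ (j : I) (n : ℤ), LL (fun (_ : I) (_ : Unit) => (1 : ℤ)) j (fun _ => n) = n := by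
    intro j n
    unfold LL
    simp
  rw [Pool.Agent.N565.A.EE_unit, Pool.Agent.N565.A.EE_unit]
  simp only [hL]

theorem dilssw : S_DILSSW := by
  classical
  intro Z I _ _ _ _ φ σ s hs ε hε
  obtain ⟨C, hC⟩ := dilsqw (phi' s φ) (sig' σ) (ε ^ 3 / 4) (by positivity)
  refine ⟨4 / ε ^ 2 * C, fun P hP => ?_⟩
  obtain ⟨K₁, hK₁, hK₁'⟩ := hC P hP
  -- the bound for the primes
  obtain ⟨M, hM⟩ : ∃ M : ℕ, ∀ p ∈ P, (p : ℝ) ≤ M ∧ 8 * s * p / ε ≤ M ∧ 8 * (p : ℝ) / ε ≤ M := by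
    refine ⟨P.sup (fun p : ℕ => p + ⌈8 * s * (p : ℝ) / ε⌉₊ + ⌈8 * (p : ℝ) / ε⌉₊), fun p hp => ?_⟩
    have h1 : p + ⌈8 * s * (p : ℝ) / ε⌉₊ + ⌈8 * (p : ℝ) / ε⌉₊
        ≤ P.sup (fun p : ℕ => p + ⌈8 * s * (p : ℝ) / ε⌉₊ + ⌈8 * (p : ℝ) / ε⌉₊) :=
      Finset.le_sup (f := fun p : ℕ => p + ⌈8 * s * (p : ℝ) / ε⌉₊ + ⌈8 * (p : ℝ) / ε⌉₊) hp
    have h2 : ((p + ⌈8 * s * (p : ℝ) / ε⌉₊ + ⌈8 * (p : ℝ) / ε⌉₊ : ℕ) : ℝ)
        ≤ ((P.sup (fun p : ℕ => p + ⌈8 * s * (p : ℝ) / ε⌉₊ + ⌈8 * (p : ℝ) / ε⌉₊) : ℕ) : ℝ) :=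
      Nat.cast_le.2 h1
    push_cast at h2
    have h3 := Nat.le_ceil (8 * s * (p : ℝ) / ε)
    have h4 := Nat.le_ceil (8 * (p : ℝ) / ε)
    have h5 : (0 : ℝ) ≤ p := Nat.cast_nonneg _
    have h6 : (0 : ℝ) ≤ (⌈8 * s * (p : ℝ) / ε⌉₊ : ℝ) := Nat.cast_nonneg _
    have h7 : (0 : ℝ) ≤ (⌈8 * (p : ℝ) / ε⌉₊ : ℝ) := Nat.cast_nonneg _
    refine ⟨?_, ?_, ?_⟩ <;> linarith
  refine ⟨K₁ * (M + 1) + M + 1, ?_⟩
  intro D K H hD hK hH w hw
  have hbd : ∀ n : ℕ, K₁ * (M + 1) + M + 1 ≤ n → K₁ ≤ n ∧ M < n := fun n hn => by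
    constructor
    · nlinarith
    · have : 0 ≤ K₁ * (M + 1) := Nat.zero_le _
      omega
  have hQ := hK₁' D (Sum.elim (fun _ : Bool => K) (fun _ : Z => H)) (hbd D hD).1
    (by rintro (b | z)
        · exact (hbd K hK).1
        · exact (hbd H hH).1) w hw
  have hDM : (M : ℝ) < D := by exact_mod_cast (hbd D hD).2
  have hKM : (M : ℝ) < K := by exact_mod_cast (hbd K hK).2
  have hDpos : 0 < D := lt_of_le_of_lt (Nat.zero_le _) (hbd D hD).2
  have hKpos : 0 < K := lt_of_le_of_lt (Nat.zero_le _) (hbd K hK).2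
  have hDpos' : (0 : ℝ) < D := by exact_mod_cast hDpos
  have hKpos' : (0 : ℝ) < K := by exact_mod_cast hKpos
  have key : ∀ p ∈ P, ER (fun _ : Z => H / p) (fun l =>
          if ∃ θ : ℝ, SS (D / p) s (K / p)
              (cub φ σ (fun m => w ((p : ℤ) * m)) s l) ((p : ℝ) * θ) + ε
            < SS D s K (cub φ σ w ((s : ℤ) * p) l) θ then (1 : ℝ) else 0)
      ≤ 4 / ε ^ 2 * ER (fun z => Sum.elim (fun _ : Bool => K) (fun _ : Z => H) z / p) (fun z =>
          ‖(av D fun d => ∏ i, cj (sig' σ i) (w (d + (p : ℤ) * LL (phi' s φ) i z)))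
            - av (D / p) fun d => ∏ i, cj (sig' σ i)
                ((fun m => w ((p : ℤ) * m)) (d + LL (phi' s φ) i z))‖ ^ 2) := by
    intro p hp
    have hp0 : 0 < p := (hP p hp).pos
    obtain ⟨hM1, hM2, hM3⟩ := hM p hp
    have eB : (fun z : Bool ⊕ Z => Sum.elim (fun _ : Bool => K) (fun _ : Z => H) z / p)
        = Sum.elim (fun _ : Bool => K / p) (fun _ : Z => H / p) := by
      funext z
      rcases z with b | z <;> rfl
    rw [eB, ER_sum, ← ER_mul]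
    refine ER_mono _ fun l => ?_
    set Φ := cub φ σ w ((s : ℤ) * p) l with hΦ
    set Ψ := cub φ σ (fun m => w ((p : ℤ) * m)) s l with hΨ
    have hG : ∀ k₀ k₁ : ℤ, ‖(av D fun d => ∏ i, cj (sig' σ i) (w (d + (p : ℤ) *
            LL (phi' s φ) i (Sum.elim (fun b => if b then k₁ else k₀) l))))
          - av (D / p) fun d => ∏ i, cj (sig' σ i)
              ((fun m => w ((p : ℤ) * m))
                (d + LL (phi' s φ) i (Sum.elim (fun b => if b then k₁ else k₀) l)))‖ ^ 2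
        = ‖(av D fun d => Φ (d + ((s : ℤ) * p) * k₀) *
              (starRingEnd ℂ) (Φ (d + ((s : ℤ) * p) * k₁)))
            - av (D / p) fun d => Ψ (d + s * k₀) * (starRingEnd ℂ) (Ψ (d + s * k₁))‖ ^ 2 := by
      intro k₀ k₁
      have e1 : ∀ d : ℤ, ∏ i, cj (sig' σ i) (w (d + (p : ℤ) *
            LL (phi' s φ) i (Sum.elim (fun b => if b then k₁ else k₀) l)))
          = Φ (d + ((s : ℤ) * p) * k₀) * (starRingEnd ℂ) (Φ (d + ((s : ℤ) * p) * k₁)) := by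
        intro d
        rw [prod_phi']
        rfl
      have e2 : ∀ d : ℤ, ∏ i, cj (sig' σ i) ((fun m => w ((p : ℤ) * m))
            (d + LL (phi' s φ) i (Sum.elim (fun b => if b then k₁ else k₀) l)))
          = Ψ (d + s * k₀) * (starRingEnd ℂ) (Ψ (d + s * k₁)) := by
        intro d
        have := prod_phi' s φ σ (fun m => w ((p : ℤ) * m)) 1 d
          (Sum.elim (fun b => if b then k₁ else k₀) l)
        simp only [one_mul, mul_one] at this
        rw [this]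
        rfl
      simp only [e1, e2]
    simp only [hG]
    have hR0 : 0 ≤ avr (K / p) fun k₀ => avr (K / p) fun k₁ =>
        ‖(av D fun d => Φ (d + ((s : ℤ) * p) * k₀) *
              (starRingEnd ℂ) (Φ (d + ((s : ℤ) * p) * k₁)))
            - av (D / p) fun d => Ψ (d + s * k₀) * (starRingEnd ℂ) (Ψ (d + s * k₁))‖ ^ 2 :=
      avr_nonneg _ fun _ => avr_nonneg _ fun _ => by positivity
    split_ifs with hex
    · obtain ⟨θ, hθ⟩ := hex
      have hpK : p ≤ K := by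
        have : (p : ℝ) < K := lt_of_le_of_lt hM1 hKM
        exact_mod_cast this.le
      have h1 := SS_le D s K p hp0 hpK hDpos Φ (norm_cub_le φ σ _ hw _ l) θ
      have h2 := core D (D / p) (K / p) Φ Ψ ((s : ℤ) * p) s (p * θ)
      have h3 : (s : ℝ) * p / D ≤ ε / 8 := by
        rw [div_le_iff₀ hDpos']
        have : 8 * s * (p : ℝ) / ε ≤ D := hM2.trans hDM.le
        rw [div_le_iff₀ hε] at this
        linarith
      have h4 : 2 * (p : ℝ) / K ≤ ε / 4 := by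
        rw [div_le_iff₀ hKpos']
        have : 8 * (p : ℝ) / ε ≤ K := hM3.trans hKM.le
        rw [div_le_iff₀ hε] at this
        linarith
      have h5 : SS (D / p) s (K / p) Ψ ((p : ℝ) * θ) = avr (D / p) fun d =>
          ‖av (K / p) fun k => Ψ (d + s * k) * eR (k * (p * θ))‖ ^ 2 := rfl
      rw [h5] at hθ
      set X := avr D fun d => ‖av (K / p) fun k => Φ (d + ((s : ℤ) * p) * k)
        * eR (k * (p * θ))‖ ^ 2 with hX
      set Y := avr (D / p) fun d => ‖av (K / p) fun k => Ψ (d + s * k)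
        * eR (k * (p * θ))‖ ^ 2 with hY
      have h6 : ε / 2 ≤ X - Y := by linarith
      have h7 : (ε / 2) ^ 2 ≤ (X - Y) ^ 2 := pow_le_pow_left₀ (by positivity) h6 2
      have h8 := h7.trans h2
      have h9 : (1 : ℝ) = 4 / ε ^ 2 * (ε / 2) ^ 2 := by field_simp; norm_num
      rw [h9]
      exact mul_le_mul_of_nonneg_left h8 (by positivity)
    · positivity
  calc _ ≤ ∑ p ∈ P, (1 / (p : ℝ)) * (4 / ε ^ 2 *
        ER (fun z => Sum.elim (fun _ : Bool => K) (fun _ : Z => H) z / p) (fun z =>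
          ‖(av D fun d => ∏ i, cj (sig' σ i) (w (d + (p : ℤ) * LL (phi' s φ) i z)))
            - av (D / p) fun d => ∏ i, cj (sig' σ i)
                ((fun m => w ((p : ℤ) * m)) (d + LL (phi' s φ) i z))‖ ^ 2)) := by
        refine Finset.sum_le_sum fun p hp => ?_
        exact mul_le_mul_of_nonneg_left (key p hp) (by positivity)
    _ = 4 / ε ^ 2 * ∑ p ∈ P, (1 / (p : ℝ)) *
        ER (fun z => Sum.elim (fun _ : Bool => K) (fun _ : Z => H) z / p) (fun z =>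
          ‖(av D fun d => ∏ i, cj (sig' σ i) (w (d + (p : ℤ) * LL (phi' s φ) i z)))
            - av (D / p) fun d => ∏ i, cj (sig' σ i)
                ((fun m => w ((p : ℤ) * m)) (d + LL (phi' s φ) i z))‖ ^ 2) := by
        rw [Finset.mul_sum]
        refine Finset.sum_congr rfl fun p _ => ?_
        ring
    _ ≤ 4 / ε ^ 2 * (C + ε ^ 3 / 4 * ∑ p ∈ P, 1 / (p : ℝ)) :=
        mul_le_mul_of_nonneg_left hQ (by positivity)
    _ = 4 / ε ^ 2 * C + ε * ∑ p ∈ P, 1 / (p : ℝ) := by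
        field_simp

end Pool.Agent.N222.S

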